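import Mathlib
import Pool.Agent.Helper46.MeanDim.LowerAll
import Pool.Agent.Helper46.MeanDim.MdimZero

set_option autoImplicit false
open scoped ENNReal

namespace Pool.Agent.Results.MP_280436_an.LowerBound

/-- Mean dimension, defined through finite open covers: the supremum over finite open covers `α` of
the upper limit of `D(α_n) / n`, where `D(α_n)` is the least `k` such that some finite open cover
`β` of order at most `k` (every point lies in at most `k + 1` members) refines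
`α ∨ T⁻¹ α ∨ ... ∨ T^{-(n-1)} α`. -/
noncomputable def mdim (X : Type) [TopologicalSpace X] (T : X → X) : ℝ≥0∞ :=
  ⨆ (α : Finset (Set X)) (_ : (∀ U ∈ α, IsOpen U) ∧ ⋃₀ (α : Set (Set X)) = Set.univ),
    Filter.limsup (fun n : ℕ =>
      (((sInf {k : ℕ | ∃ β : Finset (Set X), (∀ V ∈ β, IsOpen V) ∧
          ⋃₀ (β : Set (Set X)) = Set.univ ∧
          (∀ V ∈ β, ∀ i < n, ∃ U ∈ α, V ⊆ T^[i] ⁻¹' U) ∧
          ∀ x : X, Set.ncard {V | V ∈ β ∧ x ∈ V} ≤ k + 1} : ℕ) : ℝ≥0∞) / (n : ℝ≥0∞)))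
      Filter.atTop

/-- `d` is a metric on `X` inducing the topology of `X`. -/
structure IsCompatible {X : Type} [TopologicalSpace X] (d : X → X → ℝ) : Prop where
  zero : ∀ x y, d x y = 0 ↔ x = y
  symm : ∀ x y, d x y = d y x
  tri : ∀ x y z, d x z ≤ d x y + d y z
  top : ∀ U : Set X, IsOpen U ↔ ∀ x ∈ U, ∃ r > 0, ∀ y, d x y < r → y ∈ U

/-- The least cardinality of an open cover of `X` by sets whose diameter in the metric
`d_n(x, y) = max_{i < n} d(T^i x, T^i y)` is less than `ε`. -/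
noncomputable def covNum {X : Type} [TopologicalSpace X] (d : X → X → ℝ) (T : X → X) (n : ℕ)
    (ε : ℝ) : ℕ :=
  sInf {k : ℕ | ∃ F : Finset (Set X), F.card = k ∧ (∀ A ∈ F, IsOpen A) ∧
    ⋃₀ (F : Set (Set X)) = Set.univ ∧
    ∀ A ∈ F, ∃ δ < ε, ∀ x ∈ A, ∀ y ∈ A, ∀ i < n, d (T^[i] x) (T^[i] y) ≤ δ}

/-- Lower metric mean dimension (with a lower limit also in the time variable). -/
noncomputable def lowerMMD {X : Type} [TopologicalSpace X] (d : X → X → ℝ) (T : X → X) : ℝ≥0∞ :=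
  Filter.liminf (fun ε : ℝ =>
    Filter.liminf (fun n : ℕ => ENNReal.ofReal (Real.log (covNum d T n ε) / n)) Filter.atTop
      / ENNReal.ofReal (Real.log (1 / ε)))
    (nhdsWithin 0 (Set.Ioi 0))

open Pool.Agent.Helper46.MeanDim Finset

theorem covNum_nonempty {X : Type} [TopologicalSpace X] [CompactSpace X] {d : X → X → ℝ}
    (h : Compat d) {T : X → X} (hT : Continuous T) (n : ℕ) {ε : ℝ} (hε : 0 < ε) :
    {k : ℕ | ∃ F : Finset (Set X), F.card = k ∧ (∀ A ∈ F, IsOpen A) ∧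
    ⋃₀ (F : Set (Set X)) = Set.univ ∧
    ∀ A ∈ F, ∃ δ < ε, ∀ x ∈ A, ∀ y ∈ A, ∀ i < n, d (T^[i] x) (T^[i] y) ≤ δ}.Nonempty := by
  classical
  set U : X → Set X := fun x => ⋂ i ∈ range n, {y | d (T^[i] x) (T^[i] y) < ε / 4} with hU
  have hUo : ∀ x, IsOpen (U x) := by
    intro x
    apply isOpen_biInter_finset
    intro i _
    exact isOpen_lt ((h.cont (T^[i] x)).comp (hT.iterate i)) continuous_const
  have hxU : ∀ x, x ∈ U x := by
    intro x
    simp only [hU, Set.mem_iInter]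
    intro i _
    change d _ _ < ε / 4
    rw [(h.zero _ _).2 rfl]
    linarith
  obtain ⟨t, ht⟩ := (isCompact_univ : IsCompact (Set.univ : Set X)).elim_finite_subcover
    U hUo (fun x _ => Set.mem_iUnion.2 ⟨x, hxU x⟩)
  refine ⟨_, t.image U, rfl, ?_, ?_, ?_⟩
  · intro A hA
    rw [mem_image] at hA
    obtain ⟨z, _, rfl⟩ := hA
    exact hUo z
  · rw [Set.eq_univ_iff_forall]
    intro x
    have := ht (Set.mem_univ x)
    simp only [Set.mem_iUnion] at this
    obtain ⟨v, hv, hxv⟩ := this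
    exact ⟨_, mem_coe.2 (mem_image_of_mem _ hv), hxv⟩
  · intro A hA
    rw [mem_image] at hA
    obtain ⟨z, _, rfl⟩ := hA
    refine ⟨ε / 2, by linarith, ?_⟩
    intro x hx y hy i hi
    simp only [hU, Set.mem_iInter] at hx hy
    have h1 : d (T^[i] z) (T^[i] x) < ε / 4 := hx i (mem_range.2 hi)
    have h2 : d (T^[i] z) (T^[i] y) < ε / 4 := hy i (mem_range.2 hi)
    have h3 := h.tri (T^[i] x) (T^[i] z) (T^[i] y)
    rw [h.symm (T^[i] x) (T^[i] z)] at h3
    linarith

theorem lowerMMD_ge {d : XS → XS → ℝ} (h : Compat d) : 1 / 128 ≤ lowerMMD d TS := by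
  obtain ⟨B0, hB0⟩ := isCov_card h
  unfold lowerMMD
  apply Filter.le_liminf_of_le (h := ?_)
  have hε0 : (0 : ℝ) < min (1 / 256) (((B0 : ℝ) + 1) ^ 2)⁻¹ := by positivity
  filter_upwards [Ioo_mem_nhdsGT hε0] with ε hε
  obtain ⟨hε1, hε2⟩ := hε
  obtain ⟨B, hB1, hB2, hB3, hB4⟩ := floor_large hε1 (hε2.le.trans (min_le_left _ _)) B0
    (hε2.le.trans (min_le_right _ _))
  have hlogε : 0 < Real.log (1 / ε) := by
    apply Real.log_pos
    rw [lt_div_iff₀ hε1]
    have := hε2.le.trans (min_le_left _ _)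
    linarith
  have hpos : ENNReal.ofReal (Real.log (1 / ε)) ≠ 0 := by
    rw [Ne, ENNReal.ofReal_eq_zero, not_le]
    exact hlogε
  rw [ENNReal.le_div_iff_mul_le (Or.inl hpos) (Or.inl ENNReal.ofReal_ne_top)]
  have e : (1 / 128 : ℝ≥0∞) = ENNReal.ofReal (1 / 128) := by
    rw [ENNReal.ofReal_div_of_pos (by norm_num)]
    norm_num
  rw [e, ← ENNReal.ofReal_mul (by norm_num)]
  apply Filter.le_liminf_of_le (h := ?_)
  rw [Filter.eventually_atTop]
  refine ⟨1, ?_⟩
  intro n hn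
  apply ENNReal.ofReal_le_ofReal
  obtain ⟨F, hFc, _, hFu, hFd⟩ := Nat.sInf_mem (covNum_nonempty h TS.continuous n hε1)
  have hc : IsCov d TS n ((B : ℝ) ^ 2)⁻¹ F := by
    refine ⟨hFu, ?_⟩
    intro A hA x hx y hy i hi
    obtain ⟨δ, hδ, hFδ⟩ := hFd A hA
    exact lt_of_le_of_lt (hFδ x hx y hy i hi) (lt_of_lt_of_le hδ hB3)
  have h1 := hB0 B hB1 hB2 n hn F hc
  have h2 : (covNum d TS n ε : ℝ) = F.card := by
    unfold covNum
    rw [hFc]
  rw [h2]
  have hn0 : (0 : ℝ) < n := by exact_mod_cast hn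
  rw [le_div_iff₀ hn0]
  refine le_trans ?_ h1
  have h3 : (n : ℝ) / 32 * (Real.log (1 / ε) / 4) ≤ n / 32 * Real.log B :=
    mul_le_mul_of_nonneg_left hB4 (by positivity)
  refine le_trans (le_of_eq ?_) h3
  ring

/-- There is a homeomorphism of a compact metrizable space with mean dimension zero whose lower
metric mean dimension is at least `1 / 128` for every compatible metric. -/
theorem result : ∃ (X : Type) (_ : TopologicalSpace X) (_ : CompactSpace X)
    (_ : TopologicalSpace.MetrizableSpace X) (T : X ≃ₜ X),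
    mdim X T = 0 ∧ ∀ d : X → X → ℝ, IsCompatible d → 1 / 128 ≤ lowerMMD d T := by
  refine ⟨XS, inferInstance, inferInstance, inferInstance, TS, ?_, ?_⟩
  · unfold mdim
    apply le_antisymm _ (zero_le)
    apply iSup_le
    intro α
    apply iSup_le
    intro hα
    exact (limsup_zero hα).le
  · intro d hd
    exact lowerMMD_ge ⟨hd.zero, hd.symm, hd.tri, hd.top⟩

end Pool.Agent.Results.MP_280436_an.LowerBound
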